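import Pool.Agent.H10.HellBins

set_option autoImplicit false

open Pool.Agent.H40.Hell

namespace Pool.Agent.Results.MP_8f5189_lc.HellingerAllEps

/-- `Ψ_H(q, ε) = Θ(√k(q, Θ(ε²)) / ε²)` for every `q` and every `ε ∈ (0, 1]` for which some
distribution is at distance more than `ε` from `q`, and `Ψ_H(q, ε) = 0` for the other `ε`. Here
`k(q, η) = effSupp q η` is the least number of elements carrying `q`-mass at least `1 - η`. The
inner function `min (4 ε²) (1 - (1 - ε²)^8)` of the lower bound is less than `1` for `ε < 1`. -/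
theorem result :
    ∀ (n : ℕ) (q : Fin n → ℝ) (ε : ℝ), IsDist q → 0 < ε → ε ≤ 1 →
      (∃ m : ℕ, ∃ T : (Fin m → Fin n) → ℝ, IsTester q ε T) ∧
      (Psi q ε : ℝ) ≤ 602 * (Real.sqrt (effSupp q (ε ^ 2 / 100)) / ε ^ 2) ∧
      ((∃ p, IsDist p ∧ ε < dH p q) →
        (1 / 4320) * (Real.sqrt (effSupp q (min (4 * ε ^ 2) (1 - (1 - ε ^ 2) ^ 8))) / ε ^ 2) ≤
          (Psi q ε : ℝ)) ∧
      ((¬ ∃ p, IsDist p ∧ ε < dH p q) → Psi q ε = 0) := by
  intro n q ε hq h0 h1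
  have he2 : 0 < ε ^ 2 := by positivity
  obtain ⟨m, hm, hmle⟩ := upper hq h0 h1
  refine ⟨⟨m, hm⟩, ?_, ?_, fun h => Pool.Agent.H10.HellBins.tester_zero hq h⟩
  · have h2 : Psi q ε ≤ m := Nat.sInf_le hm
    have h3 : (Psi q ε : ℝ) ≤ m := by exact_mod_cast h2
    linarith
  · intro halt
    obtain ⟨T, hT⟩ : ∃ T : (Fin (Psi q ε) → Fin n) → ℝ, IsTester q ε T :=
      Nat.sInf_mem (s := {m : ℕ | ∃ T : (Fin m → Fin n) → ℝ, IsTester q ε T}) ⟨m, hm⟩
    have h2 := Pool.Agent.H10.HellBins.lower_all hq h0 halt hT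
    have h6 : Real.sqrt (effSupp q (min (4 * ε ^ 2) (1 - (1 - ε ^ 2) ^ 8))) / ε ^ 2 ≤
        4320 * (Psi q ε : ℝ) := by
      rw [div_le_iff₀ he2]
      linarith
    linarith

end Pool.Agent.Results.MP_8f5189_lc.HellingerAllEps
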